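import Pool.Agent.ZR.C1.AbsP

/-!
# ZR, block U1, module DEG1: the degree of a function is bounded by its height (helper49)

`E` is a field of transcendence degree one over `K0 = FLo U lam` which contains an element of height
at least `c lam`.  If the products `mu_i z ^ n` are linearly independent over `K0` then the number
of the `mu_i` is at most `C` times the height of `z` (divided by `lam`); `C` only depends on `E`.
-/

set_option autoImplicit false

open scoped BigOperators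
open Filter Topology

namespace Pool.Agent.ZR

open Pool.Agent.ZPT Pool.Agent.ZPE

namespace U1

section algebra

variable {K : Type} [Field K]

open ABS

/-- quotients of polynomials -/
theorem quot_mem (X : Set K) {r : ℕ} (g : Fin r → K) (z : K)
    (hz : z ∈ Subfield.closure (X ∪ Set.range g)) :
    ∃ δ : ℕ, ∃ a ∈ Pol X g δ, ∃ b ∈ Pol X g δ, b ≠ 0 ∧ z * b = a := by
  induction hz using Subfield.closure_induction with
  | mem z hz =>
    rcases hz with hz | ⟨i, rfl⟩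
    · refine ⟨0, z, ?_, 1, Pol_one X g 0, one_ne_zero, mul_one z⟩
      have h := Submodule.smul_mem (Pol X g 0) (⟨z, Subfield.subset_closure hz⟩ :
        Subfield.closure X) (Pol_one X g 0)
      have h2 : (⟨z, Subfield.subset_closure hz⟩ : Subfield.closure X) • (1 : K) = z :=
        mul_one z
      rwa [h2] at h
    · refine ⟨1, g i, ?_, 1, Pol_one X g 1, one_ne_zero, mul_one _⟩
      refine Submodule.subset_span ⟨Pi.single i 1, ?_, ?_⟩
      · rw [Finset.sum_pi_single']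
        simp
      · rw [Finset.prod_eq_single i]
        · simp
        · intro j _ hj
          rw [Pi.single_eq_of_ne hj, pow_zero]
        · intro h
          exact absurd (Finset.mem_univ _) h
  | one => exact ⟨0, 1, Pol_one X g 0, 1, Pol_one X g 0, one_ne_zero, mul_one 1⟩
  | add x y _ _ hx hy =>
    obtain ⟨δ, a, ha, b, hb, hb0, hab⟩ := hx
    obtain ⟨δ', a', ha', b', hb', hb0', hab'⟩ := hy
    refine ⟨δ + δ', a * b' + b * a', Submodule.add_mem _ (Pol_mul X ha hb') (Pol_mul X hb ha'),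
      b * b', Pol_mul X hb hb', mul_ne_zero hb0 hb0', ?_⟩
    rw [← hab, ← hab']
    ring
  | neg x _ hx =>
    obtain ⟨δ, a, ha, b, hb, hb0, hab⟩ := hx
    exact ⟨δ, -a, Submodule.neg_mem _ ha, b, hb, hb0, by rw [← hab]; ring⟩
  | inv x _ hx =>
    obtain ⟨δ, a, ha, b, hb, hb0, hab⟩ := hx
    by_cases h0 : x = 0
    · exact ⟨0, 0, Submodule.zero_mem _, 1, Pol_one X g 0, one_ne_zero, by rw [h0]; simp⟩
    · refine ⟨δ, b, hb, a, ha, ?_, ?_⟩
      · rw [← hab]
        exact mul_ne_zero h0 hb0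
      · rw [← hab, ← mul_assoc, inv_mul_cancel₀ h0, one_mul]
  | mul x y _ _ hx hy =>
    obtain ⟨δ, a, ha, b, hb, hb0, hab⟩ := hx
    obtain ⟨δ', a', ha', b', hb', hb0', hab'⟩ := hy
    refine ⟨δ + δ', a * a', Pol_mul X ha ha', b * b', Pol_mul X hb hb', mul_ne_zero hb0 hb0', ?_⟩
    rw [← hab, ← hab']
    ring

/-- common denominators -/
theorem quot_fam (X : Set K) {r : ℕ} (g : Fin r → K) {ι : Type} [Fintype ι] (mu : ι → K)
    (hmu : ∀ i, mu i ∈ Subfield.closure (X ∪ Set.range g)) :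
    ∃ δ : ℕ, ∃ b ∈ Pol X g δ, b ≠ 0 ∧ ∀ i, mu i * b ∈ Pol X g δ := by
  classical
  choose δ a ha b hb hb0 hab using fun i => quot_mem X g (mu i) (hmu i)
  set δ1 := ∑ i, δ i with hδ1
  have hδ : ∀ i, δ i ≤ δ1 := fun i =>
    Finset.single_le_sum (f := δ) (fun _ _ => Nat.zero_le _) (Finset.mem_univ i)
  refine ⟨Fintype.card ι * δ1 + δ1, ∏ i, b i, ?_, Finset.prod_ne_zero_iff.2 fun i _ => hb0 i, ?_⟩
  · have h := Pol_prod X Finset.univ b (g := g) (D := δ1)
      (fun i _ => Pol_mono X (hδ i) (hb i))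
    exact Pol_mono X (Nat.le_add_right _ _) h
  · intro i
    rw [← Finset.mul_prod_erase Finset.univ b (Finset.mem_univ i), ← mul_assoc, hab i]
    have h := Pol_prod X (Finset.univ.erase i) b (g := g) (D := δ1)
      (fun j _ => Pol_mono X (hδ j) (hb j))
    refine Pol_mono X ?_ (Pol_mul X (Pol_mono X (hδ i) (ha i)) h)
    have h2 : (Finset.univ.erase i).card * δ1 ≤ Fintype.card ι * δ1 :=
      Nat.mul_le_mul_right _ (Finset.card_le_univ _)
    omega

/-- the relation from the count -/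
theorem rel1 (X : Set K) {r : ℕ} (g : Fin r → K) (i0 : Fin r) (C1 : ℕ)
    (hdim : ∀ D : ℕ, Module.finrank (Subfield.closure X) (Pol X g D) ≤ C1 * (D + 1))
    {ι : Type} [Fintype ι] (z : K) (mu : ι → K) (δ : ℕ)
    (hz : ∃ a ∈ Pol X g δ, ∃ b ∈ Pol X g δ, b ≠ 0 ∧ z * b = a)
    (hmu : ∃ b ∈ Pol X g δ, b ≠ 0 ∧ ∀ i, mu i * b ∈ Pol X g δ)
    (hli : LinearIndependent (Subfield.closure X) (fun p : ι × ℕ => mu p.1 * z ^ p.2))
    (N E κ : ℕ) (hcount : C1 * (κ * E + (δ + N * δ) + 1) < (E + 1) * (Fintype.card ι * (N + 1))) :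
    ∃ c : Fin (E + 1) → ι × Fin (N + 1) → Subfield.closure X,
      (∑ e, (∑ p, (c e p : K) * (mu p.1 * z ^ (p.2 : ℕ))) * (g i0 ^ κ) ^ (e : ℕ) = 0) ∧
      ∃ e, ∑ p, (c e p : K) * (mu p.1 * z ^ (p.2 : ℕ)) ≠ 0 := by
  classical
  obtain ⟨a, ha, b, hb, hb0, hab⟩ := hz
  obtain ⟨b', hb', hb0', hmu⟩ := hmu
  let v : Fin (E + 1) × (ι × Fin (N + 1)) → K := fun q =>
    (g i0 ^ κ) ^ (q.1 : ℕ) * ((mu q.2.1 * b') * (a ^ (q.2.2 : ℕ) * b ^ (N - (q.2.2 : ℕ))))
  have hg0 : g i0 ∈ Pol X g 1 := by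
    refine Submodule.subset_span ⟨Pi.single i0 1, ?_, ?_⟩
    · rw [Finset.sum_pi_single']
      simp
    · rw [Finset.prod_eq_single i0]
      · simp
      · intro j _ hj
        rw [Pi.single_eq_of_ne hj, pow_zero]
      · intro h
        exact absurd (Finset.mem_univ _) h
  have hv : ∀ q, v q ∈ Pol X g (κ * E + (δ + N * δ)) := by
    rintro ⟨e, i, n⟩
    have h1 : (g i0 ^ κ) ^ (e : ℕ) ∈ Pol X g (κ * E) := by
      rw [← pow_mul]
      refine Pol_mono X ?_ (Pol_pow X hg0 (κ * (e : ℕ)))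
      rw [mul_one]
      exact Nat.mul_le_mul_left κ (Nat.lt_succ_iff.1 e.2)
    have h3 : a ^ (n : ℕ) * b ^ (N - (n : ℕ)) ∈ Pol X g (N * δ) := by
      have h5 := Pol_mul X (Pol_pow X ha (n : ℕ)) (Pol_pow X hb (N - (n : ℕ)))
      rw [← Nat.add_mul, Nat.add_sub_of_le (Nat.lt_succ_iff.1 n.2)] at h5
      exact h5
    exact Pol_mul X h1 (Pol_mul X (hmu i) h3)
  have hfin : Module.Finite (Subfield.closure X) (Pol X g (κ * E + (δ + N * δ))) :=
    FiniteDimensional.span_of_finite _ (Mon_finite g _)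
  have hdep : ¬ LinearIndependent (Subfield.closure X) v := by
    intro h
    have h1 : LinearIndependent (Subfield.closure X)
        (fun q => (⟨v q, hv q⟩ : Pol X g (κ * E + (δ + N * δ)))) :=
      LinearIndependent.of_comp (Pol X g (κ * E + (δ + N * δ))).subtype h
    have h2 := h1.fintype_card_le_finrank
    rw [Fintype.card_prod, Fintype.card_prod, Fintype.card_fin, Fintype.card_fin] at h2
    have h3 := h2.trans (hdim _)
    omega
  rw [Fintype.not_linearIndependent_iff] at hdep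
  obtain ⟨c, hc, ⟨q0, hq0⟩⟩ := hdep
  refine ⟨fun e p => c (e, p), ?_, ?_⟩
  · have hβ : b' * b ^ N ≠ 0 := mul_ne_zero hb0' (pow_ne_zero _ hb0)
    have hv2 : ∀ q, v q = (b' * b ^ N) * ((g i0 ^ κ) ^ (q.1 : ℕ) *
        (mu q.2.1 * z ^ (q.2.2 : ℕ))) := by
      rintro ⟨e, i, n⟩
      have h2 : b ^ N = b ^ (n : ℕ) * b ^ (N - (n : ℕ)) := by
        rw [← pow_add, Nat.add_sub_of_le (Nat.lt_succ_iff.1 n.2)]
      show (g i0 ^ κ) ^ (e : ℕ) * ((mu i * b') * (a ^ (n : ℕ) * b ^ (N - (n : ℕ)))) =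
        (b' * b ^ N) * ((g i0 ^ κ) ^ (e : ℕ) * (mu i * z ^ (n : ℕ)))
      rw [h2, ← hab, mul_pow]
      ring
    have h1 : (b' * b ^ N) * ∑ e, (∑ p, (c (e, p) : K) * (mu p.1 * z ^ (p.2 : ℕ))) *
        (g i0 ^ κ) ^ (e : ℕ) = 0 := by
      rw [← hc, Fintype.sum_prod_type, Finset.mul_sum]
      refine Finset.sum_congr rfl fun e _ => ?_
      rw [Finset.sum_mul, Finset.mul_sum]
      refine Finset.sum_congr rfl fun p _ => ?_
      rw [hv2 (e, p)]
      show _ = (c (e, p) : K) * _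
      ring
    exact (mul_eq_zero.1 h1).resolve_left hβ
  · by_contra hcon
    push Not at hcon
    apply hq0
    obtain ⟨e0, p0⟩ := q0
    have h1 := hcon e0
    let φ : ι × Fin (N + 1) → ι × ℕ := fun p => (p.1, (p.2 : ℕ))
    have hφ : Function.Injective φ := by
      rintro ⟨μ, n⟩ ⟨μ', n'⟩ h
      have h2 := Prod.ext_iff.1 h
      exact Prod.ext h2.1 (Fin.ext h2.2)
    have h2 := (Fintype.linearIndependent_iff.1 (hli.comp φ hφ)) (fun p => c (e0, p)) (by
      rw [← h1]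
      refine Finset.sum_congr rfl fun p _ => ?_
      rfl)
    exact h2 p0

end algebra

/-! ### projective heights -/

theorem logHeight_pows {K : Type} [Field K] [NumberField K] (N : ℕ) (z : K) :
    Height.logHeight (fun n : Fin (N + 1) => z ^ (n : ℕ)) ≤ N * Height.logHeight₁ z := by
  classical
  have h1 := Height.logHeight_fun_prod_eq (K := K) (α := Fin N) (ι := fun _ => Fin 2)
    (x := fun _ => ![z, 1]) (fun e h => by
      have := congrFun h 1
      simp at this)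
  have h2 : (fun n : Fin (N + 1) => z ^ (n : ℕ)) =
      (fun I : Fin N → Fin 2 => ∏ e, (![z, 1] : Fin 2 → K) (I e)) ∘
      (fun (n : Fin (N + 1)) (e : Fin N) => if (e : ℕ) < n then 0 else 1) := by
    funext n
    rw [Function.comp_apply]
    have h3 : ∀ e : Fin N, (![z, 1] : Fin 2 → K) (if (e : ℕ) < n then 0 else 1) =
        if (e : ℕ) < n then z else 1 := by
      intro e
      split_ifs <;> simp
    rw [Finset.prod_congr rfl fun e _ => h3 e, Finset.prod_ite, Finset.prod_const_one, mul_one,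
      Finset.prod_const]
    congr 1
    rw [Fin.card_filter_val_lt]
    exact (min_eq_right (Nat.lt_succ_iff.1 n.2)).symm
  calc Height.logHeight (fun n : Fin (N + 1) => z ^ (n : ℕ)) = _ := congrArg _ h2
    _ ≤ Height.logHeight (fun I : Fin N → Fin 2 => ∏ e, (![z, 1] : Fin 2 → K) (I e)) :=
        Height.logHeight_comp_le _ _
    _ = ∑ _e : Fin N, Height.logHeight ![z, 1] := h1
    _ = N * Height.logHeight₁ z := by
        rw [Finset.sum_const, Finset.card_univ, Fintype.card_fin, nsmul_eq_mul,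
          Height.logHeight₁_eq_logHeight z]

theorem logHeight_vec {K : Type} [Field K] [NumberField K] {ι E : Type} [Fintype ι] [Fintype E]
    (N : ℕ) (z : K) (mu : ι → K) (A : E × (ι × Fin (N + 1)) → K) :
    Height.logHeight (fun e => ∑ p, A (e, p) * (mu p.1 * z ^ (p.2 : ℕ))) ≤
      Module.finrank ℚ K * Real.log (Fintype.card (ι × Fin (N + 1))) +
        ∑ q, Height.logHeight₁ (A q) + (∑ i, Height.logHeight₁ (mu i) +
          N * Height.logHeight₁ z) := by
  have h1 := Height.logHeight_linearMap_apply_le (K := K) (ι' := E) A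
    (fun p : ι × Fin (N + 1) => mu p.1 * z ^ (p.2 : ℕ))
  rw [NumberField.totalWeight_eq_finrank, Nat.card_eq_fintype_card] at h1
  refine h1.trans ?_
  have h2 := HB_logHeight_le_sum A
  have h3 : Height.logHeight (fun p : ι × Fin (N + 1) => mu p.1 * z ^ (p.2 : ℕ)) ≤
      ∑ i, Height.logHeight₁ (mu i) + N * Height.logHeight₁ z := by
    by_cases h0 : mu = 0
    · have h4 : (fun p : ι × Fin (N + 1) => mu p.1 * z ^ (p.2 : ℕ)) = 0 := by
        funext p
        rw [h0, Pi.zero_apply, zero_mul, Pi.zero_apply]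
      rw [h4, Height.logHeight_zero]
      exact add_nonneg (Finset.sum_nonneg fun i _ => Height.zero_le_logHeight₁ _)
        (mul_nonneg (Nat.cast_nonneg _) (Height.zero_le_logHeight₁ _))
    · have h4 : (fun n : Fin (N + 1) => z ^ (n : ℕ)) ≠ 0 := by
        intro h
        have := congrFun h 0
        simp at this
      rw [Height.logHeight_fun_mul_eq h0 h4]
      exact add_le_add (HB_logHeight_le_sum mu) (logHeight_pows N z)
  linarith

theorem hP_vec {ι E : Type} [Fintype ι] [Fintype E] (N : ℕ) (z : Qb) (mu : ι → Qb)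
    (A : E → ι × Fin (N + 1) → Qb) :
    hP (fun e => ∑ p, A e p * (mu p.1 * z ^ (p.2 : ℕ))) ≤
      Real.log (Fintype.card (ι × Fin (N + 1))) + ∑ e, ∑ p, hQ (A e p) +
        (∑ i, hQ (mu i) + N * hQ z) := by
  classical
  obtain ⟨K, _, _, φ, b, hb⟩ := HB_field
    (Sum.elim (fun q : E × (ι × Fin (N + 1)) => A q.1 q.2) (Sum.elim mu (fun _ : Unit => z)))
  have h1 : ∀ q : E × (ι × Fin (N + 1)), φ (b (Sum.inl q)) = A q.1 q.2 := fun q => hb (Sum.inl q)
  have h2 : ∀ i, φ (b (Sum.inr (Sum.inl i))) = mu i := fun i => hb (Sum.inr (Sum.inl i))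
  have h3 : φ (b (Sum.inr (Sum.inr ()))) = z := hb (Sum.inr (Sum.inr ()))
  have hn : (0 : ℝ) < Module.finrank ℚ K := by exact_mod_cast Module.finrank_pos
  have h4 : (fun e => ∑ p, A e p * (mu p.1 * z ^ (p.2 : ℕ))) =
      fun e => φ (∑ p, b (Sum.inl (e, p)) * (b (Sum.inr (Sum.inl p.1)) *
        b (Sum.inr (Sum.inr ())) ^ (p.2 : ℕ))) := by
    funext e
    rw [map_sum]
    refine Finset.sum_congr rfl fun p _ => ?_
    rw [map_mul, map_mul, map_pow, h1 (e, p), h2, h3]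
  have h5 := logHeight_vec N (b (Sum.inr (Sum.inr ()))) (fun i => b (Sum.inr (Sum.inl i)))
    (fun q : E × (ι × Fin (N + 1)) => b (Sum.inl q))
  rw [h4, hP_map]
  have h6 := div_le_div_of_nonneg_right h5 hn.le
  refine h6.trans (le_of_eq ?_)
  have h7 : ∀ x : K, Height.logHeight₁ x = Module.finrank ℚ K * hQ (φ x) := by
    intro x
    rw [hQ_map]
    unfold hN
    rw [mul_div_cancel₀ _ hn.ne']
  simp only [h7, h2, h3]
  rw [Fintype.sum_prod_type]
  simp only [h1, ← Finset.mul_sum]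
  field_simp

/-- heights of the elements of a field of functions -/
theorem hgt_mem {Q : Type} {U : Ultrafilter Q} {lam : Q → ℝ} {r : ℕ} (g : Fin r → Q → Qb)
    (B : ℝ) (hl1 : ∀ k, 1 ≤ lam k) (hB : ∀ᶠ k in (U : Filter Q), ∀ i, hQ (g i k) ≤ B * lam k)
    (z : LL U)
    (hz : z ∈ Subfield.closure (FLo U lam ∪ Set.range fun i => ((g i : Q → Qb) : LL U))) :
    ∃ f : Q → Qb, z = (f : LL U) ∧ ∃ B' : ℝ, ∀ᶠ k in (U : Filter Q), hQ (f k) ≤ B' * lam k := by
  induction hz using Subfield.closure_induction with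
  | mem z hz =>
    rcases hz with ⟨f, hf, hlim⟩ | ⟨i, rfl⟩
    · refine ⟨f, hf, 1, ?_⟩
      filter_upwards [hlim.eventually (gt_mem_nhds (zero_lt_one : (0 : ℝ) < 1))] with k hk
      have hlk : 0 < lam k := zero_lt_one.trans_le (hl1 k)
      exact ((div_lt_iff₀ hlk).1 hk).le
    · exact ⟨g i, rfl, B, hB.mono fun k hk => hk i⟩
  | one =>
    refine ⟨fun _ => 1, rfl, 0, Eventually.of_forall fun k => ?_⟩
    rw [hQ_one, zero_mul]
  | add x y _ _ hx hy =>
    obtain ⟨f, rfl, B1, h1⟩ := hx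
    obtain ⟨f', rfl, B2, h2⟩ := hy
    refine ⟨f + f', rfl, B1 + B2 + Real.log 2, ?_⟩
    filter_upwards [h1, h2] with k hk hk'
    have h3 := hQ_add_le (f k) (f' k)
    have h4 : Real.log 2 ≤ Real.log 2 * lam k :=
      le_mul_of_one_le_right (Real.log_nonneg (by norm_num)) (hl1 k)
    rw [Pi.add_apply, add_mul, add_mul]
    linarith
  | neg x _ hx =>
    obtain ⟨f, rfl, B1, h1⟩ := hx
    refine ⟨-f, rfl, B1, ?_⟩
    filter_upwards [h1] with k hk
    rw [Pi.neg_apply, hQ_neg]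
    exact hk
  | inv x _ hx =>
    obtain ⟨f, rfl, B1, h1⟩ := hx
    refine ⟨f⁻¹, rfl, B1, ?_⟩
    filter_upwards [h1] with k hk
    rw [Pi.inv_apply, hQ_inv]
    exact hk
  | mul x y _ _ hx hy =>
    obtain ⟨f, rfl, B1, h1⟩ := hx
    obtain ⟨f', rfl, B2, h2⟩ := hy
    refine ⟨f * f', rfl, B1 + B2, ?_⟩
    filter_upwards [h1, h2] with k hk hk'
    have h3 := hQ_mul_le (f k) (f' k)
    rw [Pi.mul_apply, add_mul]
    linarith

/-- the elementary part -/
theorem num1 (C1 d : ℕ) (c H M : ℝ) (hC1 : 0 < C1) (hc : 0 < c)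
    (h : ∀ N : ℕ, ∃ κ : ℕ, d * (N + 1) < (κ + 1) * (2 * C1) ∧ κ * c ≤ N * H + M) :
    (d : ℝ) ≤ 2 * C1 / c * H := by
  have hC : (0 : ℝ) < 2 * C1 := by positivity
  by_contra hcon
  push Not at hcon
  have h1 : H < d * c / (2 * C1) := by
    rw [lt_div_iff₀ hC]
    have h2 : 2 * C1 / c * H * c < d * c := mul_lt_mul_of_pos_right hcon hc
    have h3 : 2 * C1 / c * H * c = H * (2 * C1) := by field_simp
    linarith
  obtain ⟨N, hN⟩ := exists_nat_gt ((M + c) / (d * c / (2 * C1) - H))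
  rw [div_lt_iff₀ (by linarith)] at hN
  obtain ⟨κ, h2, h3⟩ := h N
  have h4 : (d * (N + 1) : ℝ) < (κ + 1) * (2 * C1) := by exact_mod_cast h2
  have h5 : (d * (N + 1) : ℝ) * c / (2 * C1) < (κ + 1) * c := by
    rw [div_lt_iff₀ hC]
    have := mul_lt_mul_of_pos_right h4 hc
    linarith
  have h6 : (d * (N + 1) : ℝ) * c / (2 * C1) = (N + 1) * (d * c / (2 * C1)) := by ring
  have h7 : (0 : ℝ) ≤ d * c / (2 * C1) := by positivity
  rw [h6] at h5
  nlinarith

end U1

open U1 in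
/-- [DEG1] the number of the `mu_i` with independent `mu_i z ^ n` is bounded by the height of `z` -/
theorem U1.deg1 (hHILB : St_HILB) (hFLD : St_FLD) (Q : Type) (U : Ultrafilter Q) (lam : Q → ℝ)
    (r : ℕ) (g : Fin r → Q → Qb) (i0 : Fin r) (B c : ℝ) (hl1 : ∀ k, 1 ≤ lam k)
    (hlinf : Tendsto lam U atTop) (hB : ∀ᶠ k in (U : Filter Q), ∀ i, hQ (g i k) ≤ B * lam k)
    (hc : 0 < c) (hlow : ∀ᶠ k in (U : Filter Q), c * lam k ≤ hQ (g i0 k))
    (htrd : trd (FLo U lam) (Set.range fun i => ((g i : Q → Qb) : LL U)) ≤ 1) :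
    ∃ C : ℝ, 0 < C ∧ ∀ (z : Q → Qb) (H : ℝ) (ι : Type) [Fintype ι] (mu : ι → LL U),
      (z : LL U) ∈ Subfield.closure (FLo U lam ∪ Set.range fun i => ((g i : Q → Qb) : LL U)) →
      (∀ i, mu i ∈
        Subfield.closure (FLo U lam ∪ Set.range fun i => ((g i : Q → Qb) : LL U))) →
      (∀ᶠ k in (U : Filter Q), hQ (z k) ≤ H * lam k) →
      LinearIndependent (Subfield.closure (FLo U lam))
        (fun p : ι × ℕ => mu p.1 * (z : LL U) ^ p.2) → (Fintype.card ι : ℝ) ≤ C * H := by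
  classical
  set G : Fin r → LL U := fun i => ((g i : Q → Qb) : LL U) with hG
  obtain ⟨C0, hC0⟩ := hHILB (LL U) (FLo U lam) r G
  set C1 := C0 + 1 with hC1
  have hdim : ∀ D : ℕ, Module.finrank (Subfield.closure (FLo U lam)) (Pol (FLo U lam) G D) ≤
      C1 * (D + 1) := by
    intro D
    refine (hC0 D).trans ?_
    refine Nat.mul_le_mul (Nat.le_succ _) ?_
    calc (D + 1) ^ trd (FLo U lam) (Set.range G) ≤ (D + 1) ^ 1 :=
          Nat.pow_le_pow_right (Nat.succ_pos _) htrd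
      _ = D + 1 := pow_one _
  have hclo : ∀ z ∈ Subfield.closure (FLo U lam), z ∈ FLo U lam := fun z hz =>
    (hFLD Q U lam hl1 hlinf).2.2 z
      (isAlgebraic_algebraMap (⟨z, hz⟩ : Subfield.closure (FLo U lam)))
  refine ⟨2 * C1 / c, by positivity, ?_⟩
  intro z H ι _ mu hz hmu hH hli
  choose m hm Bm hBm using fun i => hgt_mem g B hl1 hB (mu i) (hmu i)
  obtain ⟨δ1, a, ha, b, hb, hb0, hab⟩ := quot_mem (FLo U lam) G (z : LL U) hz
  obtain ⟨δ2, b', hb', hb0', hmub⟩ := quot_fam (FLo U lam) G mu hmu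
  set δ := δ1 + δ2 with hδ
  have hle1 : Pol (FLo U lam) G δ1 ≤ Pol (FLo U lam) G δ := ABS.Pol_mono _ (Nat.le_add_right _ _)
  have hle2 : Pol (FLo U lam) G δ2 ≤ Pol (FLo U lam) G δ := ABS.Pol_mono _ (Nat.le_add_left _ _)
  set E := 4 * C1 * (δ + 1) with hE
  rcases Nat.eq_zero_or_pos (Fintype.card ι) with hd0 | hd0
  · rw [hd0, Nat.cast_zero]
    refine mul_nonneg (by positivity) ?_
    obtain ⟨k, hk⟩ := hH.exists
    have hlk : 0 < lam k := zero_lt_one.trans_le (hl1 k)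
    by_contra hneg
    push Not at hneg
    have := hQ_nonneg (z k)
    nlinarith
  refine num1 C1 (Fintype.card ι) c H (∑ i, Bm i) (Nat.succ_pos _) hc fun N => ?_
  set d := Fintype.card ι with hd
  set κ := d * (N + 1) / (2 * C1) with hκ
  have hκ1 : κ * (2 * C1) ≤ d * (N + 1) := Nat.div_mul_le_self _ _
  refine ⟨κ, ?_, ?_⟩
  · have hlast := Nat.lt_mul_div_succ (d * (N + 1)) (show 0 < 2 * C1 by omega)
    rw [mul_comm (2 * C1)] at hlast
    exact hlast
  have hcount : C1 * (κ * E + (δ + N * δ) + 1) < (E + 1) * (d * (N + 1)) := by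
    have h1 : C1 * (κ * E) = (κ * (2 * C1)) * (2 * C1 * (δ + 1)) := by rw [hE]; ring
    have h2 : C1 * (κ * E) ≤ (d * (N + 1)) * (2 * C1 * (δ + 1)) := by
      rw [h1]; exact Nat.mul_le_mul_right _ hκ1
    have h3 : C1 * ((δ + N * δ) + 1) ≤ C1 * (δ + 1) * (N + 1) := by
      have : (δ + N * δ) + 1 ≤ (δ + 1) * (N + 1) := by nlinarith
      calc C1 * ((δ + N * δ) + 1) ≤ C1 * ((δ + 1) * (N + 1)) := Nat.mul_le_mul_left _ this
        _ = _ := by ring
    have h4 : C1 * (δ + 1) * (N + 1) ≤ (2 * C1 * (δ + 1)) * (d * (N + 1)) := by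
      have : N + 1 ≤ d * (N + 1) := Nat.le_mul_of_pos_left _ hd0
      nlinarith [Nat.mul_le_mul_left (C1 * (δ + 1)) this]
    have h5 : 0 < d * (N + 1) := Nat.mul_pos hd0 (Nat.succ_pos _)
    have h6 : (E + 1) * (d * (N + 1)) = (d * (N + 1)) * (2 * C1 * (δ + 1)) +
        (2 * C1 * (δ + 1)) * (d * (N + 1)) + d * (N + 1) := by rw [hE]; ring
    have h7 : C1 * (κ * E + (δ + N * δ) + 1) = C1 * (κ * E) + C1 * ((δ + N * δ) + 1) := by ring
    omega
  obtain ⟨cc, hrel, e0, he0⟩ := rel1 (FLo U lam) G i0 C1 hdim (z : LL U) mu δ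
    ⟨a, hle1 ha, b, hle1 hb, hb0, hab⟩ ⟨b', hle2 hb', hb0', fun i => hle2 (hmub i)⟩ hli N E κ hcount
  choose c' hc'1 hc'2 using fun e p => hclo (cc e p : LL U) (cc e p).2
  let FF : Fin (E + 1) → Q → Qb := fun e => ∑ p : ι × Fin (N + 1),
    c' e p * (m p.1 * z ^ (p.2 : ℕ))
  have hFF : ∀ e, gh U (FF e) = ∑ p : ι × Fin (N + 1),
      (cc e p : LL U) * (mu p.1 * (z : LL U) ^ (p.2 : ℕ)) := by
    intro e
    show gh U (∑ p : ι × Fin (N + 1), c' e p * (m p.1 * z ^ (p.2 : ℕ))) = _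
    rw [map_sum]
    refine Finset.sum_congr rfl fun p _ => ?_
    rw [map_mul, map_mul, hc'1 e p, hm p.1, map_pow]
    rfl
  have hFFk : ∀ e k, FF e k = ∑ p : ι × Fin (N + 1), c' e p k * (m p.1 k * z k ^ (p.2 : ℕ)) := by
    intro e k
    simp only [FF, Finset.sum_apply, Pi.mul_apply, Pi.pow_apply]
  have hev1 : ∀ᶠ k in (U : Filter Q), ∑ e, FF e k * (g i0 k ^ κ) ^ (e : ℕ) = 0 := by
    have h1 : gh U (∑ e, FF e * (g i0 ^ κ) ^ (e : ℕ)) = 0 := by
      rw [map_sum, ← hrel]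
      refine Finset.sum_congr rfl fun e _ => ?_
      rw [map_mul, hFF, map_pow, map_pow]
      rfl
    have h2 : ((∑ e, FF e * (g i0 ^ κ) ^ (e : ℕ) : Q → Qb) : LL U) = ((0 : Q → Qb) : LL U) := h1
    filter_upwards [Germ.coe_eq.1 h2] with k hk
    simpa only [Finset.sum_apply, Pi.mul_apply, Pi.pow_apply, Pi.zero_apply] using hk
  have hev2 : ∀ᶠ k in (U : Filter Q), FF e0 k ≠ 0 := by
    have h1 : ¬ ∀ᶠ k in (U : Filter Q), FF e0 k = 0 := by
      intro h
      apply he0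
      rw [← hFF]
      exact Germ.coe_eq.2 h
    exact Ultrafilter.eventually_not.2 h1
  set S : Q → ℝ := fun k => ∑ e, ∑ p, hQ (c' e p k) with hS
  set Lg : ℝ := Real.log (Fintype.card (ι × Fin (N + 1))) with hLg
  have hbound : ∀ᶠ k in (U : Filter Q), κ * c ≤ S k / lam k + (N * H + ∑ i, Bm i) +
      (Lg + Real.log (E + 1)) / lam k := by
    filter_upwards [hev1, hev2, hlow, hH, eventually_all.2 hBm] with k h1 h2 h4 h5 h6
    have hlk : 0 < lam k := zero_lt_one.trans_le (hl1 k)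
    have h7 := LIO_holds E (fun e => FF e k) (g i0 k ^ κ) (fun h => h2 (congrFun h e0)) h1
    rw [hQ_pow] at h7
    have h8 : hP (fun e => FF e k) ≤ Lg + S k + (∑ i, hQ (m i k) + N * hQ (z k)) := by
      simp only [hFFk]
      exact hP_vec N (z k) (fun i => m i k) (fun e p => c' e p k)
    have h9 : ∑ i, hQ (m i k) ≤ (∑ i, Bm i) * lam k := by
      rw [Finset.sum_mul]
      exact Finset.sum_le_sum fun i _ => h6 i
    have h10 : (κ : ℝ) * (c * lam k) ≤ κ * hQ (g i0 k) :=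
      mul_le_mul_of_nonneg_left h4 (Nat.cast_nonneg _)
    have h11 : (N : ℝ) * hQ (z k) ≤ N * (H * lam k) :=
      mul_le_mul_of_nonneg_left h5 (Nat.cast_nonneg _)
    have h12 : (κ * c) * lam k ≤ S k + (N * H + ∑ i, Bm i) * lam k +
        (Lg + Real.log (E + 1)) := by
      rw [add_mul]
      linarith
    have h13 : κ * c ≤ (S k + (N * H + ∑ i, Bm i) * lam k + (Lg + Real.log (E + 1))) / lam k :=
      (le_div_iff₀ hlk).2 h12
    refine h13.trans (le_of_eq ?_)
    rw [add_div, add_div, mul_div_assoc, div_self hlk.ne', mul_one]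
  have hlim : Tendsto (fun k => S k / lam k + (N * H + ∑ i, Bm i) +
      (Lg + Real.log (E + 1)) / lam k) U (𝓝 (0 + (N * H + ∑ i, Bm i) + 0)) := by
    refine Tendsto.add (Tendsto.add ?_ tendsto_const_nhds) (hlinf.const_div_atTop _)
    have h1 : (fun k => S k / lam k) = fun k => ∑ e, ∑ p, hQ (c' e p k) / lam k := by
      funext k
      simp only [hS, Finset.sum_div]
    rw [h1]
    have h2 : (0 : ℝ) = ∑ _e : Fin (E + 1), ∑ _p : ι × Fin (N + 1), (0 : ℝ) := by
      simp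
    rw [h2]
    exact tendsto_finsetSum _ fun e _ => tendsto_finsetSum _ fun p _ => hc'2 e p
  rw [zero_add, add_zero] at hlim
  exact ge_of_tendsto hlim hbound

end Pool.Agent.ZR
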